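import Pool.Agent.LeoG.AlgStmts
import Pool.Agent.Helper32_LeoK.Cub

/-! Squad leog, module CBG: the integral cubic form. -/

set_option autoImplicit false

open NumberField IsDedekindDomain Module
open Pool.Agent.LeoK

namespace Pool.Agent.LeoG.H2

lemma descend {k K : Type} [Field k] [NumberField k] [Field K] [NumberField K] [Algebra k K]
    {e : K} (he : IsIntegral ℤ e) {n : ℕ} (hn : n ≠ 0) {y : k}
    (h : (n : K) * e = algebraMap k K y) : ∃ b : 𝓞 k, algebraMap k K (b : k) = e := by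
  have hn' : (n : K) ≠ 0 := Nat.cast_ne_zero.2 hn
  have h1 : algebraMap k K (y / (n : k)) = e := by
    rw [map_div₀, map_natCast, ← h]
    field_simp
  have h2 : IsIntegral ℤ (y / (n : k)) := by
    rw [← isIntegral_algebraMap_iff (algebraMap k K).injective (R := ℤ), h1]
    exact he
  exact ⟨⟨y / (n : k), h2⟩, h1⟩

section core

variable {E : Type} [Field E] {a b s m u v u' v' : E}

lemma cube_id (hs : s ^ 2 = 3 * m) (h : u - u' = a * s) :
    u ^ 3 - u' ^ 3 = 3 * (a * (m * a ^ 2 + u * u')) * s := by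
  have h1 : u ^ 3 - u' ^ 3 = (u - u') * ((u - u') ^ 2 + 3 * (u * u')) := by ring
  rw [h1, h, mul_pow, hs]
  ring

lemma sqm_id (h : u - u' = a * s) (h' : v - v' = b * s) :
    u ^ 2 * v - u' ^ 2 * v' = (b * u ^ 2 + a * (v' * (u + u'))) * s := by
  have h1 : u ^ 2 * v - u' ^ 2 * v' = u ^ 2 * (v - v') + v' * (u + u') * (u - u') := by ring
  rw [h1, h, h']
  ring

end core

/-- CBG -/
theorem cbg : CbgStmt := by
  intro k K _ _ _ _ _ m s c hd hs0 hs hcs hy u v z ν hν hz hu hv hD hzz h9 z0 z1 z2 z3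
  have hc : ∀ x : 𝓞 K, IsIntegral ℤ (c (x : K)) := fun x =>
    x.isIntegral_coe.map ((c : K ≃ₐ[k] K).toRingEquiv.toRingHom.toIntAlgHom)
  have hi : ∀ x : 𝓞 K, IsIntegral ℤ (x : K) := fun x => x.isIntegral_coe
  have hk : ∀ x : 𝓞 k, IsIntegral ℤ (algebraMap k K (x : k)) := fun x =>
    (isIntegral_algebraMap_iff (algebraMap k K).injective (R := ℤ)).2 x.isIntegral_coe
  obtain ⟨t, ht⟩ := h9
  -- reduction from quotients by z
  have hred : ∀ x g : 𝓞 K, x = z * g → ∃ y : 𝓞 k,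
      (g : K) - c g = ((x : K) - c x) - 3 * algebraMap k K (y : k) * s := by
    intro x g hx
    obtain ⟨y, hy'⟩ := hy (t * g)
    refine ⟨y, ?_⟩
    have e1 : (g : K) = x - 9 * ((t * g : 𝓞 K) : K) := by
      have e2 : (z : K) - 1 = 9 * (t : K) := by
        have h90 : ((9 : 𝓞 K) : K) = 9 := map_ofNat (algebraMap (𝓞 K) K) 9
        rw [← h90]
        exact congrArg (fun w : 𝓞 K => (w : K)) ht
      have e3 : (x : K) = z * g := by rw [hx]; rfl
      have e4 : ((t * g : 𝓞 K) : K) = (t : K) * g := rfl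
      rw [e3, e4]
      linear_combination -(g : K) * e2
    have e5 : c (g : K) = c x - 9 * c ((t * g : 𝓞 K) : K) := by
      conv_lhs => rw [e1]
      rw [map_sub, map_mul, map_ofNat]
    rw [e5]
    conv_lhs => rw [e1]
    linear_combination -3 * hy'
  -- the four numbers
  have hcube : ∀ w : 𝓞 K, OrdR s c w → ∃ a : 𝓞 k, (w : K) ^ 3 - c w ^ 3 =
      3 * algebraMap k K (a : k) * s := by
    rintro w ⟨a, ha⟩
    have h1 := cube_id (m := algebraMap k K (m : k)) (by rw [hs, map_mul, map_ofNat]) ha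
    have hint : IsIntegral ℤ (algebraMap k K (a : k) * (algebraMap k K (m : k) *
        algebraMap k K (a : k) ^ 2 + (w : K) * c w)) :=
      (hk a).mul (((hk m).mul ((hk a).pow 2)).add ((hi w).mul (hc w)))
    obtain ⟨y, hy'⟩ := hy (w ^ 3)
    have h2 : (((w ^ 3 : 𝓞 K)) : K) = (w : K) ^ 3 := rfl
    rw [h2, map_pow, h1] at hy'
    obtain ⟨b, hb⟩ := descend hint (n := 9) (by norm_num) (y := (y : k)) (by
      apply mul_right_cancel₀ hs0
      rw [← hy']
      push_cast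
      ring)
    exact ⟨b, by rw [h1, hb]⟩
  have hmix : ∀ w w' : 𝓞 K, OrdR s c w → OrdR s c w' → ∃ a : 𝓞 k,
      (w : K) ^ 2 * w' - c w ^ 2 * c w' = algebraMap k K (a : k) * s := by
    rintro w w' ⟨a, ha⟩ ⟨b, hb⟩
    have h1 := sqm_id ha hb
    have hint : IsIntegral ℤ (algebraMap k K (b : k) * (w : K) ^ 2 + algebraMap k K (a : k) *
        (c (w' : K) * ((w : K) + c w))) :=
      ((hk b).mul ((hi w).pow 2)).add ((hk a).mul ((hc w').mul ((hi w).add (hc w))))
    obtain ⟨y, hy'⟩ := hy (w ^ 2 * w')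
    have h2 : (((w ^ 2 * w' : 𝓞 K)) : K) = (w : K) ^ 2 * w' := rfl
    rw [h2, map_mul, map_pow, h1] at hy'
    obtain ⟨d, hd'⟩ := descend hint (n := 3) (by norm_num) (y := (y : k)) (by
      apply mul_right_cancel₀ hs0
      rw [← hy']
      push_cast
      ring)
    exact ⟨d, by rw [h1, hd']⟩
  obtain ⟨g0, e0⟩ := z0
  obtain ⟨g1, e1⟩ := z1
  obtain ⟨g2, e2⟩ := z2
  obtain ⟨g3, e3⟩ := z3
  obtain ⟨y0, f0⟩ := hred _ _ e0
  obtain ⟨y1, f1⟩ := hred _ _ e1
  obtain ⟨y2, f2⟩ := hred _ _ e2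
  obtain ⟨y3, f3⟩ := hred _ _ e3
  obtain ⟨a0, k0⟩ := hcube u hu
  obtain ⟨a1, k1⟩ := hmix u v hu hv
  obtain ⟨a2, k2⟩ := hmix v u hv hu
  obtain ⟨a3, k3⟩ := hcube v hv
  have hB : (z : K) ≠ 0 := by simpa using hz
  have hB' : c (z : K) ≠ 0 := by
    rw [Ne, map_eq_zero_iff c c.injective]
    exact hB
  have hN : algebraMap k K (ν : k) ≠ 0 := by
    rw [Ne, map_eq_zero_iff _ (algebraMap k K).injective]
    simpa using hν
  have q0 : (g0 : K) = (u : K) ^ 3 / z := by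
    rw [eq_div_iff hB, mul_comm]
    exact (congrArg (fun w : 𝓞 K => (w : K)) e0).symm
  have q1 : (g1 : K) = (u : K) ^ 2 * v / z := by
    rw [eq_div_iff hB, mul_comm]
    exact (congrArg (fun w : 𝓞 K => (w : K)) e1).symm
  have q2 : (g2 : K) = (u : K) * v ^ 2 / z := by
    rw [eq_div_iff hB, mul_comm]
    exact (congrArg (fun w : 𝓞 K => (w : K)) e2).symm
  have q3 : (g3 : K) = (v : K) ^ 3 / z := by
    rw [eq_div_iff hB, mul_comm]
    exact (congrArg (fun w : 𝓞 K => (w : K)) e3).symm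
  have h13 : ∀ a y : 𝓞 k, ((a - 3 * y : 𝓞 k) : k) = (a : k) - 3 * (y : k) := by
    intro a y
    have h14 : ((3 : 𝓞 k) : k) = 3 := map_ofNat (algebraMap (𝓞 k) k) 3
    have h15 : ((a - 3 * y : 𝓞 k) : k) = (a : k) - ((3 : 𝓞 k) : k) * (y : k) := rfl
    rw [h15, h14]
  have r0 : 3 * algebraMap k K ((a0 - y0 : 𝓞 k) : k) * s = (u : K) ^ 3 / z - c u ^ 3 / c z := by
    have : ((u ^ 3 : 𝓞 K) : K) = (u : K) ^ 3 := rfl
    rw [this, map_pow, k0, q0, map_div₀, map_pow] at f0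
    rw [f0]
    have h1 : ((a0 - y0 : 𝓞 k) : k) = a0 - y0 := rfl
    rw [h1, map_sub]
    ring
  have r3 : 3 * algebraMap k K ((a3 - y3 : 𝓞 k) : k) * s = (v : K) ^ 3 / z - c v ^ 3 / c z := by
    have : ((v ^ 3 : 𝓞 K) : K) = (v : K) ^ 3 := rfl
    rw [this, map_pow, k3, q3, map_div₀, map_pow] at f3
    rw [f3]
    have h1 : ((a3 - y3 : 𝓞 k) : k) = a3 - y3 := rfl
    rw [h1, map_sub]
    ring
  have r1 : algebraMap k K ((a1 - 3 * y1 : 𝓞 k) : k) * s =
      (u : K) ^ 2 * v / z - c u ^ 2 * c v / c z := by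
    have : ((u ^ 2 * v : 𝓞 K) : K) = (u : K) ^ 2 * v := rfl
    rw [this, map_mul, map_pow, k1, q1, map_div₀, map_mul, map_pow] at f1
    rw [f1]
    have h1 := h13 a1 y1
    rw [h1, map_sub, map_mul, map_ofNat]
    ring
  have r2 : algebraMap k K ((a2 - 3 * y2 : 𝓞 k) : k) * s =
      (u : K) * v ^ 2 / z - c u * c v ^ 2 / c z := by
    have : ((u * v ^ 2 : 𝓞 K) : K) = (u : K) * v ^ 2 := rfl
    rw [this, map_mul, map_pow, q2, map_div₀, map_mul, map_pow] at f2
    rw [f2]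
    have h1 := h13 a2 y2
    rw [h1, map_sub, map_mul, map_ofNat]
    linear_combination -k2
  obtain ⟨-, -, -, k4⟩ := Pool.Agent.LeoK.H32.core (U := (u : K)) (V := (v : K)) (U' := c (u : K))
    (V' := c (v : K)) hB hB' hs0 hN (A0 := 3 * algebraMap k K ((a0 - y0 : 𝓞 k) : k))
    (A1 := algebraMap k K ((a1 - 3 * y1 : 𝓞 k) : k))
    (A2 := algebraMap k K ((a2 - 3 * y2 : 𝓞 k) : k))
    (A3 := 3 * algebraMap k K ((a3 - y3 : 𝓞 k) : k)) r0 r1 r2 r3 hzz hD
  refine ⟨![a0 - y0, a1 - 3 * y1, a2 - 3 * y2, a3 - y3], ?_, ?_⟩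
  · apply RingOfIntegers.coe_injective
    apply (algebraMap k K).injective
    rw [hs, map_mul, map_ofNat] at k4
    generalize hA : a0 - y0 = A at *
    generalize hBB : a1 - 3 * y1 = B at *
    generalize hC : a2 - 3 * y2 = C at *
    generalize hDD : a3 - y3 = D at *
    have h3 : (3 : K) ≠ 0 := by norm_num
    apply mul_left_cancel₀ h3
    have h5 : algebraMap k K ((mm ![A, B, C, D] : 𝓞 k) : k) = -(algebraMap k K (B : k) ^ 2 *
        algebraMap k K (C : k) ^ 2 - 4 * algebraMap k K (A : k) * algebraMap k K (C : k) ^ 3 -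
        4 * algebraMap k K (B : k) ^ 3 * algebraMap k K (D : k) -
        27 * algebraMap k K (A : k) ^ 2 * algebraMap k K (D : k) ^ 2 +
        18 * algebraMap k K (A : k) * algebraMap k K (B : k) * algebraMap k K (C : k) *
          algebraMap k K (D : k)) := by
      simp [mm, dsc, map_ofNat]
    rw [h5]
    linear_combination -k4
  · intro x y
    have h5 : (fun i => ((![a0 - y0, a1 - 3 * y1, a2 - 3 * y2, a3 - y3] : Fin 4 → 𝓞 k) i : k)) =
        ![((a0 - y0 : 𝓞 k) : k), ((a1 - 3 * y1 : 𝓞 k) : k), ((a2 - 3 * y2 : 𝓞 k) : k),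
          ((a3 - y3 : 𝓞 k) : k)] := by
      funext i
      fin_cases i <;> rfl
    rw [h5]
    generalize ((a0 - y0 : 𝓞 k) : k) = A at *
    generalize ((a1 - 3 * y1 : 𝓞 k) : k) = B at *
    generalize ((a2 - 3 * y2 : 𝓞 k) : k) = C at *
    generalize ((a3 - y3 : 𝓞 k) : k) = D at *
    have h6 : gval ![A, B, C, D] x y = A * x ^ 3 + B * x ^ 2 * y + C * x * y ^ 2 + D * y ^ 3 := rfl
    rw [h6]
    simp only [map_add, map_mul, map_pow, map_div₀, AlgEquiv.commutes]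
    linear_combination (algebraMap k K x) ^ 3 * r0 +
      3 * (algebraMap k K x) ^ 2 * algebraMap k K y * r1 +
      3 * algebraMap k K x * (algebraMap k K y) ^ 2 * r2 + (algebraMap k K y) ^ 3 * r3

end Pool.Agent.LeoG.H2
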